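import Pool.Agent.E8helper22.VQ.Stm

/-!
# Piece NCP of project VQ
-/

set_option autoImplicit false

namespace Pool.Agent.E8helper9.VQ

open Finset Pool.Agent.E8helper22.VQ
open scoped ArithmeticFunction.vonMangoldt

theorem card_primeFactors_le (Q : ℕ) (hQ : 0 < Q) :
    (Q.primeFactors.card : ℝ) ≤ 2 * Real.log Q := by
  have h1 : 2 ^ Q.primeFactors.card ≤ Q := by
    calc 2 ^ Q.primeFactors.card = ∏ _p ∈ Q.primeFactors, 2 := by rw [prod_const]
      _ ≤ ∏ p ∈ Q.primeFactors, p :=
        Finset.prod_le_prod' fun p hp => (Nat.prime_of_mem_primeFactors hp).two_le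
      _ ≤ Q := Nat.le_of_dvd hQ (Nat.prod_primeFactors_dvd Q)
  have h2 : ((2 : ℝ) ^ Q.primeFactors.card) ≤ Q := by exact_mod_cast h1
  have h3 := Real.log_le_log (by positivity) h2
  rw [Real.log_pow] at h3
  have h4 := Real.log_two_gt_d9
  have h5 : (0 : ℝ) ≤ Q.primeFactors.card := by positivity
  nlinarith

theorem log_mul_log (p N : ℕ) (hp : p.Prime) (hN : 1 ≤ N) :
    (Nat.log p N : ℝ) * Real.log p ≤ Real.log N := by
  have h1 : p ^ Nat.log p N ≤ N := Nat.pow_log_le_self p (by omega)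
  have h2 : ((p : ℝ) ^ Nat.log p N) ≤ N := by exact_mod_cast h1
  have hp0 : (0 : ℝ) < p := by exact_mod_cast hp.pos
  have h3 := Real.log_le_log (by positivity) h2
  rwa [Real.log_pow] at h3

/-- the powers of `p` up to `N` -/
def pw (p N : ℕ) : Finset ℕ := (Icc 1 (Nat.log p N)).image (fun k => p ^ k)

theorem card_pw (p N : ℕ) : (pw p N).card ≤ Nat.log p N := by
  refine le_trans card_image_le ?_
  rw [Nat.card_Icc]
  omega

theorem Lambda_le (Q N n : ℕ) (hn : n ∈ (Icc 1 N).filter (fun n => ¬ n.Coprime Q))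
    (hQ : 0 < Q) : Λ n ≤ ∑ p ∈ Q.primeFactors, if n ∈ pw p N then Real.log p else 0 := by
  rw [mem_filter, mem_Icc] at hn
  have hnn : ∀ p ∈ Q.primeFactors, (0 : ℝ) ≤ if n ∈ pw p N then Real.log p else 0 := by
    intro p hp
    split_ifs
    · exact Real.log_natCast_nonneg p
    · exact le_rfl
  by_cases hpp : IsPrimePow n
  · obtain ⟨p, k, hp, hk, rfl⟩ := (isPrimePow_nat_iff n).1 hpp
    have hpQ : p ∣ Q := by
      by_contra hcon
      apply hn.2
      exact Nat.Coprime.pow_left k ((Nat.Prime.coprime_iff_not_dvd hp).2 hcon)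
    have hmem : p ∈ Q.primeFactors := Nat.mem_primeFactors.2 ⟨hp, hpQ, by omega⟩
    have hpk : p ^ k ∈ pw p N := by
      refine mem_image.2 ⟨k, mem_Icc.2 ⟨by omega, ?_⟩, rfl⟩
      exact (Nat.le_log_iff_pow_le hp.one_lt (by omega)).2 hn.1.2
    have h1 := single_le_sum hnn hmem
    rw [if_pos hpk] at h1
    rw [ArithmeticFunction.vonMangoldt_apply_pow (by omega),
      ArithmeticFunction.vonMangoldt_apply_prime hp]
    exact h1
  · rw [(ArithmeticFunction.vonMangoldt_eq_zero_iff).2 hpp]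
    exact sum_nonneg hnn

theorem t_NCP : S_NCP := by
  intro Q X hQ hX
  set N := ⌊X⌋₊ with hN
  have hN1 : 1 ≤ N := by
    rw [hN, Nat.one_le_floor_iff]
    exact hX
  have hNX : (N : ℝ) ≤ X := Nat.floor_le (by linarith)
  have hlogN : Real.log N ≤ Real.log X :=
    Real.log_le_log (by exact_mod_cast hN1) hNX
  have hlogX : 0 ≤ Real.log X := Real.log_nonneg hX
  calc ∑ n ∈ (Icc 1 N).filter (fun n => ¬ n.Coprime Q), Λ n
      ≤ ∑ n ∈ (Icc 1 N).filter (fun n => ¬ n.Coprime Q),
          ∑ p ∈ Q.primeFactors, if n ∈ pw p N then Real.log p else 0 :=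
        sum_le_sum fun n hn => Lambda_le Q N n hn hQ
    _ = ∑ p ∈ Q.primeFactors, ∑ n ∈ (Icc 1 N).filter (fun n => ¬ n.Coprime Q),
          if n ∈ pw p N then Real.log p else 0 := sum_comm
    _ ≤ ∑ p ∈ Q.primeFactors, Real.log X := by
        refine sum_le_sum fun p hp => ?_
        have hpp := Nat.prime_of_mem_primeFactors hp
        have hlogp : 0 ≤ Real.log p := Real.log_natCast_nonneg p
        rw [← sum_filter, sum_const, nsmul_eq_mul]
        have h1 : (((Icc 1 N).filter (fun n => ¬ n.Coprime Q)).filter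
            (fun n => n ∈ pw p N)).card ≤ Nat.log p N := by
          refine le_trans (card_le_card ?_) (card_pw p N)
          intro n hn
          exact (mem_filter.1 hn).2
        have h2 : ((((Icc 1 N).filter (fun n => ¬ n.Coprime Q)).filter
            (fun n => n ∈ pw p N)).card : ℝ) ≤ Nat.log p N := by exact_mod_cast h1
        exact le_trans (mul_le_mul_of_nonneg_right h2 hlogp)
          (le_trans (log_mul_log p N hpp hN1) hlogN)
    _ = Q.primeFactors.card * Real.log X := by rw [sum_const, nsmul_eq_mul]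
    _ ≤ 2 * Real.log Q * Real.log X :=
        mul_le_mul_of_nonneg_right (card_primeFactors_le Q hQ) hlogX

end Pool.Agent.E8helper9.VQ
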